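import Mathlib
import Pool.Agent.W745.Fib.Stm

/-!
Strict form of the convexity inequality (part C of the library on the Fibonacci spectrum).
-/

set_option autoImplicit false

open Polynomial

namespace Pool.Agent.Y662.FIB

/-- General lemma: partial fractions of `V / D` and the Wronskian. -/
theorem wr_repr (D V : ℝ[X]) (s : Finset ℝ) (hD : D ≠ 0) (hs : s.card = D.natDegree)
    (hr : ∀ c ∈ s, D.eval c = 0) (hV : V.natDegree ≤ D.natDegree)
    (h0 : ∀ c ∈ s, (derivative D).eval c ≠ 0) :
    V = C (V.coeff D.natDegree / D.leadingCoeff) * D +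
      ∑ c ∈ s, C (V.eval c / (derivative D).eval c) * (D /ₘ (X - C c)) ∧
    (∀ c ∈ s, ∀ y : ℝ, (y - c) * (D /ₘ (X - C c)).eval y = D.eval y) ∧
    (∀ c ∈ s, (D /ₘ (X - C c)).eval c = (derivative D).eval c) ∧
    ∀ x : ℝ, (derivative V).eval x * D.eval x - V.eval x * (derivative D).eval x =
      ∑ c ∈ s, -(V.eval c / (derivative D).eval c) * (D /ₘ (X - C c)).eval x ^ 2 := by
  classical
  set Q : ℝ → ℝ[X] := fun c => D /ₘ (X - C c) with hQ
  have hfac : ∀ c ∈ s, (X - C c) * Q c = D := by
    intro c hc
    exact (mul_divByMonic_eq_iff_isRoot).2 (hr c hc)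
  have hfacE : ∀ c ∈ s, ∀ y : ℝ, (y - c) * (Q c).eval y = D.eval y := by
    intro c hc y
    have := congrArg (fun p => eval y p) (hfac c hc)
    simpa using this
  have hder : ∀ c ∈ s, ∀ y : ℝ,
      (derivative D).eval y = (Q c).eval y + (y - c) * (derivative (Q c)).eval y := by
    intro c hc y
    have := congrArg (fun p => eval y (derivative p)) (hfac c hc)
    simp only [derivative_mul, derivative_sub, derivative_X, derivative_C, sub_zero, one_mul,
      eval_add, eval_mul, eval_sub, eval_X, eval_C] at this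
    exact this.symm
  have hQc : ∀ c ∈ s, (Q c).eval c = (derivative D).eval c := by
    intro c hc
    rw [hder c hc c]; ring
  have hQc' : ∀ c ∈ s, ∀ c' ∈ s, c' ≠ c → (Q c).eval c' = 0 := by
    intro c hc c' hc' hne
    have := hfacE c hc c'
    rw [hr c' hc'] at this
    rcases mul_eq_zero.1 this with h | h
    · exact absurd (sub_eq_zero.1 h) hne
    · exact h
  have hQdeg : ∀ c ∈ s, (Q c).degree < (s.card : WithBot ℕ) := by
    intro c _
    have h1 : (Q c).degree < D.degree := degree_divByMonic_lt D (X - C c) hD (by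
      rw [degree_X_sub_C]; exact zero_lt_one)
    rwa [degree_eq_natDegree hD, ← hs] at h1
  set α : ℝ := V.coeff D.natDegree / D.leadingCoeff with hα
  have hlc : D.leadingCoeff ≠ 0 := leadingCoeff_ne_zero.2 hD
  have hWdeg : (V - C α * D).degree < (s.card : WithBot ℕ) := by
    rw [hs, degree_lt_iff_coeff_zero]
    intro m hm
    rcases Nat.lt_or_eq_of_le hm with hm | hm
    · rw [coeff_sub, coeff_C_mul, coeff_eq_zero_of_natDegree_lt (lt_of_le_of_lt hV hm),
        coeff_eq_zero_of_natDegree_lt hm]
      simp
    · rw [← hm, coeff_sub, coeff_C_mul, coeff_natDegree, hα]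
      field_simp
      ring
  have hSdeg : (∑ c ∈ s, C (V.eval c / (derivative D).eval c) * Q c).degree <
      (s.card : WithBot ℕ) := by
    refine lt_of_le_of_lt (degree_sum_le _ _) ?_
    rw [Finset.sup_lt_iff (by exact WithBot.bot_lt_coe _)]
    intro c hc
    refine lt_of_le_of_lt ?_ (hQdeg c hc)
    refine le_trans (degree_mul_le _ _) ?_
    calc (C (V.eval c / (derivative D).eval c)).degree + (Q c).degree
        ≤ 0 + (Q c).degree := by
          gcongr
          exact degree_C_le
      _ = (Q c).degree := zero_add _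
  have hzero : V - C α * D - ∑ c ∈ s, C (V.eval c / (derivative D).eval c) * Q c = 0 := by
    refine eq_zero_of_degree_lt_of_eval_finset_eq_zero s
      (lt_of_le_of_lt (degree_sub_le _ _) (max_lt hWdeg hSdeg)) ?_
    intro c hc
    rw [eval_sub, eval_sub, eval_finsetSum, Finset.sum_eq_single c]
    · have e : ∀ a : ℝ, ∀ p : ℝ[X], eval c (C a * p) = a * eval c p := by
        intro a p; rw [eval_mul, eval_C]
      rw [e, e, hQc c hc, hr c hc, div_mul_cancel₀ _ (h0 c hc)]
      ring
    · intro b hb hne
      rw [eval_mul, hQc' b hb c hc (Ne.symm hne), mul_zero]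
    · intro h; exact absurd hc h
  have hVeq : V = C α * D + ∑ c ∈ s, C (V.eval c / (derivative D).eval c) * Q c := by
    have := sub_eq_zero.1 hzero
    rw [← this]; ring
  refine ⟨hVeq, hfacE, hQc, fun x => ?_⟩
  have e1 : V.eval x = α * D.eval x +
      ∑ c ∈ s, V.eval c / (derivative D).eval c * (Q c).eval x := by
    conv_lhs => rw [hVeq]
    simp [eval_finsetSum]
  have e2 : (derivative V).eval x = α * (derivative D).eval x +
      ∑ c ∈ s, V.eval c / (derivative D).eval c * (derivative (Q c)).eval x := by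
    conv_lhs => rw [hVeq]
    simp only [derivative_add, derivative_mul, derivative_C, zero_mul, zero_add, eval_add,
      eval_mul, eval_C, derivative_sum, eval_finsetSum]
  have e3 : (derivative V).eval x * D.eval x - V.eval x * (derivative D).eval x =
      ∑ c ∈ s, -(V.eval c / (derivative D).eval c) * (Q c).eval x ^ 2 := by
    rw [e1, e2]
    have : (α * (derivative D).eval x +
        ∑ c ∈ s, V.eval c / (derivative D).eval c * (derivative (Q c)).eval x) * D.eval x -
        (α * D.eval x + ∑ c ∈ s, V.eval c / (derivative D).eval c * (Q c).eval x) *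
          (derivative D).eval x =
        (∑ c ∈ s, V.eval c / (derivative D).eval c * (derivative (Q c)).eval x) * D.eval x -
        (∑ c ∈ s, V.eval c / (derivative D).eval c * (Q c).eval x) * (derivative D).eval x := by
      ring
    rw [this, Finset.sum_mul, Finset.sum_mul, ← Finset.sum_sub_distrib]
    refine Finset.sum_congr rfl ?_
    intro c hc
    rw [← hfacE c hc x, hder c hc x]
    ring
  exact e3

/-- `D ≠ 0` of degree `d ≥ 1` with `d` distinct real roots `c`, `V` of degree `≤ d`
and `V(c) / D'(c) < 0` for every root; then `V' D - V D' > 0` everywhere. -/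
theorem wronskian_pos (D V : ℝ[X]) (s : Finset ℝ) (hD : D ≠ 0) (hs : s.card = D.natDegree)
    (hne : s.Nonempty)
    (hr : ∀ c ∈ s, D.eval c = 0) (hV : V.natDegree ≤ D.natDegree)
    (h0 : ∀ c ∈ s, (derivative D).eval c ≠ 0)
    (hle : ∀ c ∈ s, V.eval c / (derivative D).eval c < 0) (x : ℝ) :
    0 < (derivative V).eval x * D.eval x - V.eval x * (derivative D).eval x := by
  classical
  obtain ⟨-, hfacE, hQc, e3⟩ := wr_repr D V s hD hs hr hV h0
  rw [e3 x]
  have hpos : ∀ c ∈ s, 0 ≤ -(V.eval c / (derivative D).eval c) * (D /ₘ (X - C c)).eval x ^ 2 := fun c hc =>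
    mul_nonneg (neg_nonneg.2 (hle c hc).le) (sq_nonneg _)
  refine Finset.sum_pos' hpos ?_
  -- find a term which is positive
  by_cases hx : D.eval x = 0
  · -- `x` is one of the roots: there are no other roots
    have hxs : x ∈ s := by
      by_contra hxs
      have hcard : (insert x s).card ≤ D.natDegree := by
        have h1 : (insert x s).val ⊆ D.roots := by
          intro y hy
          have hy' : y ∈ insert x s := hy
          rw [mem_roots hD]
          rcases Finset.mem_insert.1 hy' with rfl | h
          · exact hx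
          · exact hr y h
        have h2 : (insert x s).card ≤ Multiset.card D.roots :=
          Multiset.card_le_card ((Multiset.le_iff_subset (insert x s).nodup).2 h1)
        exact h2.trans (card_roots' D)
      rw [Finset.card_insert_of_notMem hxs] at hcard
      omega
    refine ⟨x, hxs, ?_⟩
    have h1 : (D /ₘ (X - C x)).eval x ≠ 0 := by rw [hQc x hxs]; exact h0 x hxs
    have h2 := hle x hxs
    have h3 : 0 < (D /ₘ (X - C x)).eval x ^ 2 := by positivity
    exact mul_pos (by linarith) h3
  · obtain ⟨c, hc⟩ := hne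
    refine ⟨c, hc, ?_⟩
    have h1 : (D /ₘ (X - C c)).eval x ≠ 0 := by
      intro h
      apply hx
      rw [← hfacE c hc x, h, mul_zero]
    have h2 := hle c hc
    have h3 : 0 < (D /ₘ (X - C c)).eval x ^ 2 := by positivity
    exact mul_pos (by linarith) h3

/-- `D` of degree `d ≥ 1` with `d` distinct real roots, all at distance `≤ M` from `x`, and
`V(c) / D'(c) ≤ 0` for every root: lower bound of the Wronskian by the sum of the residues. -/
theorem wronskian_lower (D V : ℝ[X]) (s : Finset ℝ) (hD : D ≠ 0) (hs : s.card = D.natDegree)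
    (hd : 1 ≤ D.natDegree)
    (hr : ∀ c ∈ s, D.eval c = 0) (hV : V.natDegree ≤ D.natDegree)
    (h0 : ∀ c ∈ s, (derivative D).eval c ≠ 0)
    (hle : ∀ c ∈ s, V.eval c / (derivative D).eval c ≤ 0) (x M : ℝ)
    (hM : ∀ c ∈ s, |x - c| ≤ M) :
    -(V.coeff (D.natDegree - 1) * D.leadingCoeff - V.coeff D.natDegree *
      D.coeff (D.natDegree - 1)) * (D.eval x) ^ 2 ≤ M ^ 2 * D.leadingCoeff ^ 2 *
      ((derivative V).eval x * D.eval x - V.eval x * (derivative D).eval x) := by
  classical
  obtain ⟨hVeq, hfacE, hQc, e3⟩ := wr_repr D V s hD hs hr hV h0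
  have hlc : D.leadingCoeff ≠ 0 := leadingCoeff_ne_zero.2 hD
  have hQl : ∀ c ∈ s, (D /ₘ (X - C c)).coeff (D.natDegree - 1) = D.leadingCoeff := by
    intro c _
    have h1 : (D /ₘ (X - C c)).natDegree = D.natDegree - 1 := by
      rw [natDegree_divByMonic D (monic_X_sub_C c), natDegree_X_sub_C]
    rw [← h1, coeff_natDegree, leadingCoeff_divByMonic_X_sub_C]
    intro h
    have := natDegree_eq_zero_iff_degree_le_zero.2 h.le
    omega
  have hco : V.coeff (D.natDegree - 1) = V.coeff D.natDegree / D.leadingCoeff *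
      D.coeff (D.natDegree - 1) +
      (∑ c ∈ s, V.eval c / (derivative D).eval c) * D.leadingCoeff := by
    have := congrArg (fun p => p.coeff (D.natDegree - 1)) hVeq
    simp only [coeff_add, coeff_C_mul, finset_sum_coeff] at this
    rw [this, Finset.sum_mul]
    congr 1
    exact Finset.sum_congr rfl (fun c hc => by rw [hQl c hc])
  have hS : -(V.coeff (D.natDegree - 1) * D.leadingCoeff - V.coeff D.natDegree *
      D.coeff (D.natDegree - 1)) =
      D.leadingCoeff ^ 2 * ∑ c ∈ s, -(V.eval c / (derivative D).eval c) := by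
    rw [hco, Finset.sum_neg_distrib]
    field_simp
    ring
  rw [hS, e3 x]
  have hterm : ∀ c ∈ s, -(V.eval c / (derivative D).eval c) * (D.eval x) ^ 2 ≤
      M ^ 2 * (-(V.eval c / (derivative D).eval c) * (D /ₘ (X - C c)).eval x ^ 2) := by
    intro c hc
    have h1 : 0 ≤ -(V.eval c / (derivative D).eval c) := neg_nonneg.2 (hle c hc)
    have h2 : (x - c) ^ 2 ≤ M ^ 2 := by
      rw [← sq_abs (x - c)]
      exact pow_le_pow_left₀ (abs_nonneg _) (hM c hc) 2
    rw [← hfacE c hc x]
    have h3 : (x - c) ^ 2 * (D /ₘ (X - C c)).eval x ^ 2 ≤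
        M ^ 2 * (D /ₘ (X - C c)).eval x ^ 2 := mul_le_mul_of_nonneg_right h2 (sq_nonneg _)
    calc -(V.eval c / (derivative D).eval c) * ((x - c) * (D /ₘ (X - C c)).eval x) ^ 2
        = -(V.eval c / (derivative D).eval c) * ((x - c) ^ 2 * (D /ₘ (X - C c)).eval x ^ 2) := by
          ring
      _ ≤ -(V.eval c / (derivative D).eval c) * (M ^ 2 * (D /ₘ (X - C c)).eval x ^ 2) :=
          mul_le_mul_of_nonneg_left h3 h1
      _ = _ := by ring
  have hsum := Finset.sum_le_sum hterm
  rw [← Finset.sum_mul, ← Finset.mul_sum] at hsum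
  have h4 : 0 ≤ D.leadingCoeff ^ 2 := sq_nonneg _
  calc D.leadingCoeff ^ 2 * (∑ c ∈ s, -(V.eval c / (derivative D).eval c)) * (D.eval x) ^ 2
      = D.leadingCoeff ^ 2 * ((∑ c ∈ s, -(V.eval c / (derivative D).eval c)) *
        (D.eval x) ^ 2) := by ring
    _ ≤ D.leadingCoeff ^ 2 * (M ^ 2 * ∑ c ∈ s, -(V.eval c / (derivative D).eval c) *
        (D /ₘ (X - C c)).eval x ^ 2) := mul_le_mul_of_nonneg_left hsum h4
    _ = _ := by ring

open Pool.Agent.W745.Fib in
/-- strict form of part C -/
theorem strictC (hB : SB) (hZ : SZ) : ∀ lam : ℝ, 0 < lam → ∀ n : ℕ, 3 ≤ n → ∀ E : ℝ,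
    0 < dLE lam n E * dE lam n E - dL lam n E * dEE lam n E := by
  intro lam hlam n hn3 E
  have hn : 1 ≤ n := by omega
  obtain ⟨_, _, hfin, hcard, hsgn⟩ := hZ lam hlam.ne' n hn
  have hb := hB lam hlam n hn
  have hP : P lam n ≠ 0 := P_ne_zero lam n
  have hfib2 : 2 ≤ Nat.fib n := by
    calc 2 = Nat.fib 3 := rfl
      _ ≤ Nat.fib n := Nat.fib_mono hn3
  have hdeg : (derivative (P lam n)).natDegree = Nat.fib n - 1 := by
    rw [natDegree_derivative, natDegree_P]
  have hD : derivative (P lam n) ≠ 0 := by
    intro h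
    have h2 := derivative_eq_zero.1 h
    rw [natDegree_P] at h2
    omega
  have hcard' : hfin.toFinset.card = Nat.fib n - 1 := by
    rw [← hcard, Set.ncard_eq_toFinset_card _ hfin]
  have key := wronskian_pos (derivative (P lam n)) (R lam n) hfin.toFinset hD
    (by rw [hdeg, hcard'])
    (by
      rw [← Finset.card_pos, hcard']
      omega)
    (by
      intro c hc
      exact (hfin.mem_toFinset.1 hc))
    (by rw [hdeg]; exact natDegree_R lam n)
    (by
      intro c hc h
      have := hsgn c (hfin.mem_toFinset.1 hc)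
      have h' : dEE lam n c = 0 := h
      rw [h', mul_zero] at this
      exact lt_irrefl _ this)
    (by
      intro c hc
      have hc' : dE lam n c = 0 := hfin.mem_toFinset.1 hc
      have h1 := hsgn c hc'
      have h2 := hb c hc'
      change dL lam n c / dEE lam n c < 0
      rcases lt_trichotomy (tr lam n c) 0 with h | h | h
      · have h3 : 0 < dEE lam n c := by
          by_contra hcon
          have := mul_nonneg_of_nonpos_of_nonpos h.le (not_lt.1 hcon)
          linarith
        have h4 : dL lam n c < 0 := by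
          by_contra hcon
          have := mul_nonpos_of_nonpos_of_nonneg h.le (not_lt.1 hcon)
          linarith
        exact div_neg_of_neg_of_pos h4 h3
      · rw [h, zero_mul] at h1; exact absurd h1 (lt_irrefl _)
      · have h3 : dEE lam n c < 0 := by
          by_contra hcon
          have := mul_nonneg h.le (not_lt.1 hcon)
          linarith
        have h4 : 0 < dL lam n c := by
          by_contra hcon
          have := mul_nonpos_of_nonneg_of_nonpos h.le (not_lt.1 hcon)
          linarith
        exact div_neg_of_pos_of_neg h4 h3) E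
  exact key

end Pool.Agent.Y662.FIB
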