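import Pool.Agent.W745.Fib.Fin
import Pool.Agent.Y662.FIB.Wr

/-!
Bands of the periodic approximants of the Fibonacci Hamiltonian as functions of the coupling.
-/

set_option autoImplicit false

open Set Filter Topology

namespace Pool.Agent.Y662.FIB

open Pool.Agent.W745.Fib Pool.Agent.W811.Stu

theorem hZ : SZ := Pool.Agent.W74.FM.Z.z
theorem hB : SB := Pool.Agent.W74.FM.B.b Pool.Agent.W112.FM.sA Pool.Agent.W74.FM.Z.z
  Pool.Agent.W237.FM.ro

/-- a band: `p` is the end where the trace is `1`, `q` the end where it is `-1` -/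
def Bnd (n : ℕ) (l p q : ℝ) : Prop :=
  tr l n p = 1 ∧ tr l n q = -1 ∧ ∀ e ∈ Set.uIcc p q, |tr l n e| ≤ 1

lemma one_lt {l : ℝ} (hl : 0 < l) : (1 : ℝ) < cc (l / 2) := one_lt_cc (by positivity)

lemma dE_ne {l : ℝ} (hl : 0 < l) {n : ℕ} (hn : 1 ≤ n) {e : ℝ} (h : |tr l n e| ≤ 1) :
    dE l n e ≠ 0 :=
  (hZ l hl.ne' n hn).1 e (lt_of_le_of_lt h (one_lt hl))

lemma mono_seg {l : ℝ} (hl : 0 < l) {n : ℕ} (hn : 1 ≤ n) {u v : ℝ}
    (h : ∀ e ∈ Icc u v, |tr l n e| ≤ 1) :
    StrictMonoOn (tr l n) (Icc u v) ∨ StrictAntiOn (tr l n) (Icc u v) := by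
  have hne : ∀ e ∈ Icc u v, dE l n e ≠ 0 := fun e he => dE_ne hl hn (h e he)
  have hd : ∀ e, deriv (tr l n) e = dE l n e := fun e => (hasDeriv_tr l n e).deriv
  rcases lt_or_ge v u with huv | huv
  · left
    intro x hx
    rw [Icc_eq_empty (not_le.2 huv)] at hx
    exact hx.elim
  by_cases hpos : 0 < dE l n u
  · left
    have h2 : ∀ e ∈ Icc u v, 0 < dE l n e := by
      intro e he
      by_contra hc
      push Not at hc
      obtain ⟨t, ht, ht2⟩ := isPreconnected_Icc.intermediate_value he (left_mem_Icc.2 huv)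
        (cont_dE l n).continuousOn ⟨hc, hpos.le⟩
      exact hne t ht ht2
    exact strictMonoOn_of_deriv_pos (convex_Icc u v) (cont_tr l n).continuousOn
      (fun x hx => by rw [hd]; exact h2 x (interior_subset hx))
  · right
    have hneg : dE l n u < 0 := lt_of_le_of_ne (not_lt.1 hpos) (hne u (left_mem_Icc.2 huv))
    have h2 : ∀ e ∈ Icc u v, dE l n e < 0 := by
      intro e he
      by_contra hc
      push Not at hc
      obtain ⟨t, ht, ht2⟩ := isPreconnected_Icc.intermediate_value (left_mem_Icc.2 huv) he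
        (cont_dE l n).continuousOn ⟨hneg.le, hc⟩
      exact hne t ht ht2
    exact strictAntiOn_of_deriv_neg (convex_Icc u v) (cont_tr l n).continuousOn
      (fun x hx => by rw [hd]; exact h2 x (interior_subset hx))

lemma inj_seg {l : ℝ} (hl : 0 < l) {n : ℕ} (hn : 1 ≤ n) {u v : ℝ}
    (h : ∀ e ∈ Icc u v, |tr l n e| ≤ 1) : InjOn (tr l n) (Icc u v) := by
  rcases mono_seg hl hn h with h | h
  · exact h.injOn
  · exact h.injOn

lemma ex_band {l : ℝ} (hl : 0 < l) {n : ℕ} (hn : 1 ≤ n) {E : ℝ} (h : |tr l n E| ≤ 1) :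
    ∃ p q, Bnd n l p q ∧ E ∈ Set.uIcc p q := by
  obtain ⟨C, -, hC⟩ := Pool.Agent.W753.FM.sdi l hl.ne' 1 one_pos (one_lt hl)
  obtain ⟨u, v, huE, hEv, huv, hb, hends⟩ := (hC n hn).2 E h
  rcases hends with ⟨h1, h2⟩ | ⟨h1, h2⟩
  · refine ⟨v, u, ⟨h2, h1, ?_⟩, ?_⟩
    · rw [uIcc_of_ge huv.le]; exact hb
    · rw [uIcc_of_ge huv.le]; exact ⟨huE, hEv⟩
  · refine ⟨u, v, ⟨h1, h2, ?_⟩, ?_⟩
    · rw [uIcc_of_le huv.le]; exact hb
    · rw [uIcc_of_le huv.le]; exact ⟨huE, hEv⟩

lemma uniq {l : ℝ} (hl : 0 < l) {n : ℕ} (hn : 1 ≤ n) {p q p' q' x : ℝ} (h : Bnd n l p q)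
    (h' : Bnd n l p' q') (hx : x ∈ Set.uIcc p q) (hx' : x ∈ Set.uIcc p' q') :
    p = p' ∧ q = q' := by
  obtain ⟨h1, h2, h3⟩ := h
  obtain ⟨h1', h2', h3'⟩ := h'
  have e1 : ∀ e ∈ Icc (min (min p q) (min p' q')) (max (max p q) (max p' q')),
      |tr l n e| ≤ 1 := by
    intro e he
    have hx1 : min p q ≤ x ∧ x ≤ max p q := hx
    have hx2 : min p' q' ≤ x ∧ x ≤ max p' q' := hx'
    rcases le_total e x with hex | hex
    · rcases min_le_iff.1 he.1 with h | h
      · exact h3 e ⟨h, hex.trans hx1.2⟩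
      · exact h3' e ⟨h, hex.trans hx2.2⟩
    · rcases le_max_iff.1 he.2 with h | h
      · exact h3 e ⟨hx1.1.trans hex, h⟩
      · exact h3' e ⟨hx2.1.trans hex, h⟩
  have inj := inj_seg hl hn e1
  have m1 : p ∈ Icc (min (min p q) (min p' q')) (max (max p q) (max p' q')) :=
    ⟨min_le_iff.2 (Or.inl (min_le_left _ _)), le_max_iff.2 (Or.inl (le_max_left _ _))⟩
  have m2 : q ∈ Icc (min (min p q) (min p' q')) (max (max p q) (max p' q')) :=
    ⟨min_le_iff.2 (Or.inl (min_le_right _ _)), le_max_iff.2 (Or.inl (le_max_right _ _))⟩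
  have m3 : p' ∈ Icc (min (min p q) (min p' q')) (max (max p q) (max p' q')) :=
    ⟨min_le_iff.2 (Or.inr (min_le_left _ _)), le_max_iff.2 (Or.inr (le_max_left _ _))⟩
  have m4 : q' ∈ Icc (min (min p q) (min p' q')) (max (max p q) (max p' q')) :=
    ⟨min_le_iff.2 (Or.inr (min_le_right _ _)), le_max_iff.2 (Or.inr (le_max_right _ _))⟩
  exact ⟨inj m1 m3 (h1.trans h1'.symm), inj m2 m4 (h2.trans h2'.symm)⟩

/-- level curves -/
lemma curves {n : ℕ} (hn : 1 ≤ n) {c : ℝ} (hc : |c| ≤ 1) :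
    ∃ e : Fin (Nat.fib n) → ℝ → ℝ,
      (∀ l : ℝ, 0 < l → Function.Injective (fun i => e i l) ∧
        {E : ℝ | tr l n E = c} = Set.range (fun i => e i l)) ∧
      ∀ i, ∀ l : ℝ, 0 < l → HasDerivAt (e i) (-(dL l n (e i l)) / dE l n (e i l)) l := by
  have hset : ∀ l : ℝ, {E : ℝ | tr l n E - c = 0} = {E : ℝ | tr l n E = c} := by
    intro l; ext E; simp [sub_eq_zero]
  obtain ⟨e, h1, h2⟩ := Pool.Agent.W237.FM.ro (fun x => tr x.1 n x.2 - c)
    (fun l E => dE l n E) (fun l E => dL l n E)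
    (((contDiff_tr n).sub contDiff_const).of_le le_top)
    (fun l E => (hasDeriv_tr l n E).sub_const c) (fun l E => (hasDeriv_tr_lam l n E).sub_const c)
    (Nat.fib n) (fun l hl => by
      obtain ⟨z1, z2, -⟩ := hZ l hl.ne' n hn
      have hc' : |c| < cc (l / 2) := lt_of_le_of_lt hc (one_lt hl)
      simp only [hset]
      refine ⟨(z2 c hc').1, (z2 c hc').2, fun E hE => z1 E ?_⟩
      have : tr l n E = c := by linarith
      rw [this]; exact hc')
  refine ⟨e, fun l hl => ?_, h2⟩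
  have := h1 l hl
  simp only [hset] at this
  exact this

/-- the pairing of the ends of the bands does not depend on the coupling -/
lemma pairing {n : ℕ} (hn : 1 ≤ n) {p q : Fin (Nat.fib n) → ℝ → ℝ}
    (hp : ∀ l : ℝ, 0 < l → Function.Injective (fun i => p i l) ∧
        {E : ℝ | tr l n E = 1} = Set.range (fun i => p i l))
    (hq : ∀ l : ℝ, 0 < l → Function.Injective (fun i => q i l) ∧
        {E : ℝ | tr l n E = -1} = Set.range (fun i => q i l))
    (cp : ∀ i, ∀ l : ℝ, 0 < l → ContinuousAt (p i) l)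
    (cq : ∀ i, ∀ l : ℝ, 0 < l → ContinuousAt (q i) l) (j : Fin (Nat.fib n)) :
    ∃ k, ∀ l : ℝ, 0 < l → Bnd n l (p j l) (q k l) := by
  have hpj : ∀ l : ℝ, 0 < l → tr l n (p j l) = 1 := by
    intro l hl
    have : p j l ∈ {E : ℝ | tr l n E = 1} := by rw [(hp l hl).2]; exact ⟨j, rfl⟩
    exact this
  have hqk : ∀ k, ∀ l : ℝ, 0 < l → tr l n (q k l) = -1 := by
    intro k l hl
    have : q k l ∈ {E : ℝ | tr l n E = -1} := by rw [(hq l hl).2]; exact ⟨k, rfl⟩
    exact this
  have hex : ∀ l : Ioi (0 : ℝ), ∃ k, Bnd n l (p j l) (q k l) := by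
    intro l
    have hl : (0 : ℝ) < l := l.2
    have h1 := hpj l hl
    obtain ⟨p', q', hb, hm⟩ := ex_band hl hn (E := p j l) (by rw [h1, abs_one])
    have hpp : p' = p j l := by
      -- `p j l` is in the band and has trace `1`
      have inj : InjOn (tr l n) (Icc (min p' q') (max p' q')) := inj_seg hl hn hb.2.2
      exact inj ⟨min_le_left _ _, le_max_left _ _⟩ hm (hb.1.trans h1.symm)
    have : q' ∈ {E : ℝ | tr l n E = -1} := hb.2.1
    rw [(hq l hl).2] at this
    obtain ⟨k, hk⟩ := this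
    refine ⟨k, ?_⟩
    simp only at hk
    rw [hk, ← hpp]
    exact hb
  choose f hf using hex
  have huniq : ∀ (l : Ioi (0 : ℝ)) (k : Fin (Nat.fib n)), Bnd n l (p j l) (q k l) → f l = k := by
    intro l k hk
    have hl : (0 : ℝ) < l := l.2
    have := (uniq hl hn (hf l) hk left_mem_uIcc left_mem_uIcc).2
    exact (hq l hl).1 this
  have hfib : ∀ k, f ⁻¹' {k} = {l : Ioi (0 : ℝ) | Bnd n l (p j l) (q k l)} := by
    intro k
    ext l
    constructor
    · intro h
      have h' : f l = k := h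
      rw [← h']
      exact hf l
    · intro h
      exact huniq l k h
  have hcl : ∀ k, IsClosed (f ⁻¹' {k}) := by
    intro k
    rw [hfib k]
    have e : {l : Ioi (0 : ℝ) | Bnd n l (p j l) (q k l)} =
        ⋂ t ∈ Icc (0 : ℝ) 1, {l : Ioi (0 : ℝ) |
          |tr l n (p j l + t * (q k l - p j l))| ≤ 1} := by
      ext l
      simp only [mem_iInter, mem_setOf_eq]
      constructor
      · intro h t ht
        apply h.2.2
        rw [← segment_eq_uIcc, segment_eq_image']
        exact ⟨t, ht, by simp⟩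
      · intro h
        refine ⟨hpj l l.2, hqk k l l.2, ?_⟩
        intro e he
        rw [← segment_eq_uIcc, segment_eq_image'] at he
        obtain ⟨t, ht, rfl⟩ := he
        exact h t ht
    rw [e]
    refine isClosed_biInter (fun t _ => ?_)
    have c1 : Continuous (fun l : Ioi (0 : ℝ) => p j l) :=
      continuous_iff_continuousAt.2 (fun l => (cp j l l.2).comp continuous_subtype_val.continuousAt)
    have c2 : Continuous (fun l : Ioi (0 : ℝ) => q k l) :=
      continuous_iff_continuousAt.2 (fun l => (cq k l l.2).comp continuous_subtype_val.continuousAt)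
    have c3 : Continuous (fun l : Ioi (0 : ℝ) => tr l n (p j l + t * (q k l - p j l))) := by
      have := (contDiff_tr n).continuous.comp (f := fun l : Ioi (0 : ℝ) =>
        (((l : ℝ), p j l + t * (q k l - p j l)) : ℝ × ℝ))
        (continuous_subtype_val.prodMk (c1.add (continuous_const.mul (c2.sub c1))))
      exact this
    exact isClosed_le c3.abs continuous_const
  have hcont : Continuous f := by
    rw [continuous_iff_isClosed]
    intro s _
    have : f ⁻¹' s = ⋃ k ∈ s, f ⁻¹' {k} := by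
      ext l; simp
    rw [this]
    exact (toFinite s).isClosed_biUnion (fun k _ => hcl k)
  have hpre : PreconnectedSpace (Ioi (0 : ℝ)) :=
    Subtype.preconnectedSpace isPreconnected_Ioi
  have h1p : (1 : ℝ) ∈ Ioi (0 : ℝ) := by
    rw [mem_Ioi]; exact one_pos
  refine ⟨f ⟨1, h1p⟩, fun l hl => ?_⟩
  have h1 : f ⟨1, h1p⟩ = f ⟨l, hl⟩ := hpre.constant hcont
  rw [h1]
  exact hf ⟨l, hl⟩

/-- the ends of one band as functions of the coupling -/
structure Ends (n : ℕ) (u v : ℝ → ℝ) : Prop where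
  lt : ∀ l : ℝ, 0 < l → u l < v l
  le : ∀ l : ℝ, 0 < l → ∀ e ∈ Icc (u l) (v l), |tr l n e| ≤ 1
  hu : ∀ l : ℝ, 0 < l → HasDerivAt u (-(dL l n (u l)) / dE l n (u l)) l
  hv : ∀ l : ℝ, 0 < l → HasDerivAt v (-(dL l n (v l)) / dE l n (v l)) l

lemma ends_of {n : ℕ} {p q : ℝ → ℝ} (hb : ∀ l : ℝ, 0 < l → Bnd n l (p l) (q l))
    (hp : ∀ l : ℝ, 0 < l → HasDerivAt p (-(dL l n (p l)) / dE l n (p l)) l)
    (hq : ∀ l : ℝ, 0 < l → HasDerivAt q (-(dL l n (q l)) / dE l n (q l)) l) :
    ∃ u v : ℝ → ℝ, Ends n u v ∧ ∀ l : ℝ, 0 < l → Icc (u l) (v l) = Set.uIcc (p l) (q l) := by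
  have hne : ∀ l : ℝ, 0 < l → q l - p l ≠ 0 := by
    intro l hl h
    have h1 := (hb l hl).1
    have h2 := (hb l hl).2.1
    have : q l = p l := by linarith
    rw [this, h1] at h2
    norm_num at h2
  have hcont : ContinuousOn (fun l => q l - p l) (Ioi 0) := fun l hl =>
    ((hq l hl).continuousAt.sub (hp l hl).continuousAt).continuousWithinAt
  rcases lt_or_gt_of_ne (hne 1 one_pos) with h | h
  · have hs : ∀ l : ℝ, 0 < l → 0 < p l - q l := fun l hl =>
      Pool.Agent.W74.FM.B.sign_Ioi (f := fun l => p l - q l)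
        (by
          have := hcont.neg
          refine this.congr (fun l _ => ?_)
          simp)
        (fun x hx h0 => hne x hx (by linarith)) one_pos hl (by linarith)
    have hlt : ∀ l : ℝ, 0 < l → q l < p l := fun l hl => by linarith [hs l hl]
    refine ⟨q, p, ⟨hlt, fun l hl e he => (hb l hl).2.2 e ?_, hq, hp⟩, fun l hl => ?_⟩
    · rw [uIcc_of_ge (hlt l hl).le]; exact he
    · rw [uIcc_of_ge (hlt l hl).le]
  · have hs : ∀ l : ℝ, 0 < l → 0 < q l - p l := fun l hl =>
      Pool.Agent.W74.FM.B.sign_Ioi (f := fun l => q l - p l) hcont hne one_pos hl h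
    have hlt : ∀ l : ℝ, 0 < l → p l < q l := fun l hl => by linarith [hs l hl]
    refine ⟨p, q, ⟨hlt, fun l hl e he => (hb l hl).2.2 e ?_, hp, hq⟩, fun l hl => ?_⟩
    · rw [uIcc_of_le (hlt l hl).le]; exact he
    · rw [uIcc_of_le (hlt l hl).le]

/-- the velocity decreases strictly inside a band -/
lemma vel {n : ℕ} (hn : 3 ≤ n) {u v : ℝ → ℝ} (h : Ends n u v) {l : ℝ} (hl : 0 < l) :
    -(dL l n (v l)) / dE l n (v l) < -(dL l n (u l)) / dE l n (u l) := by
  have hlt := h.lt l hl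
  have hne : ∀ e ∈ Icc (u l) (v l), dE l n e ≠ 0 := fun e he =>
    dE_ne hl (by omega) (h.le l hl e he)
  have hd : ∀ e ∈ Icc (u l) (v l), HasDerivAt (fun e => -(dL l n e) / dE l n e)
      ((-(dLE l n e) * dE l n e - -(dL l n e) * dEE l n e) / dE l n e ^ 2) e := fun e he =>
    (hasDeriv_dL l n e).neg.div (hasDeriv_dE l n e) (hne e he)
  have hanti : StrictAntiOn (fun e => -(dL l n e) / dE l n e) (Icc (u l) (v l)) := by
    apply strictAntiOn_of_deriv_neg (convex_Icc _ _)
    · intro e he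
      exact (hd e he).continuousAt.continuousWithinAt
    · intro e he
      have he' := interior_subset he
      rw [(hd e he').deriv]
      have h1 := strictC hB hZ l hl n hn e
      have h2 : 0 < dE l n e ^ 2 := by
        have := hne e he'
        positivity
      apply div_neg_of_neg_of_pos _ h2
      linarith
  exact hanti (left_mem_Icc.2 hlt.le) (right_mem_Icc.2 hlt.le) hlt

lemma shrink {n : ℕ} (hn : 3 ≤ n) {u v : ℝ → ℝ} (h : Ends n u v) :
    StrictAntiOn (fun l => v l - u l) (Ioi 0) := by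
  have hd : ∀ l : ℝ, 0 < l → HasDerivAt (fun l => v l - u l)
      (-(dL l n (v l)) / dE l n (v l) - -(dL l n (u l)) / dE l n (u l)) l := fun l hl =>
    (h.hv l hl).sub (h.hu l hl)
  apply strictAntiOn_of_deriv_neg (convex_Ioi 0)
  · intro l hl
    exact (hd l hl).continuousAt.continuousWithinAt
  · intro l hl
    have hl' : 0 < l := interior_subset hl
    rw [(hd l hl').deriv]
    linarith [vel hn h hl']

/-- all bands, numbered from left to right -/
theorem bands {n : ℕ} (hn : 1 ≤ n) : ∃ u v : Fin (Nat.fib n) → ℝ → ℝ,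
    (∀ j, Ends n (u j) (v j)) ∧
    (∀ l : ℝ, 0 < l → ∀ i j, i < j → v i l < u j l) ∧
    ∀ l : ℝ, 0 < l → {E : ℝ | |tr l n E| ≤ 1} = ⋃ j, Icc (u j l) (v j l) := by
  obtain ⟨p, hp, dp⟩ := curves hn (c := 1) (by norm_num)
  obtain ⟨q, hq, dq⟩ := curves hn (c := -1) (by norm_num)
  choose k hk using pairing hn hp hq (fun i l hl => (dp i l hl).continuousAt)
    (fun i l hl => (dq i l hl).continuousAt)
  choose u v huv hI using fun j => ends_of (hk j) (dp j) (dq (k j))
  have hdisj : ∀ l : ℝ, 0 < l → ∀ i j, ∀ x, x ∈ Icc (u i l) (v i l) → x ∈ Icc (u j l) (v j l) →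
      i = j := by
    intro l hl i j x hi hj
    rw [hI i l hl] at hi
    rw [hI j l hl] at hj
    exact (hp l hl).1 (uniq hl hn (hk i l hl) (hk j l hl) hi hj).1
  have hinj : Function.Injective (fun j => u j 1) := by
    intro i j hij
    have hij' : u i 1 = u j 1 := hij
    refine hdisj 1 one_pos i j (u i 1) (left_mem_Icc.2 ((huv i).lt 1 one_pos).le) ?_
    rw [hij']
    exact left_mem_Icc.2 ((huv j).lt 1 one_pos).le
  set σ := Tuple.sort (fun j => u j 1) with hσ
  have hmono : StrictMono ((fun j => u j 1) ∘ σ) :=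
    (Tuple.monotone_sort (fun j => u j 1)).strictMono_of_injective (hinj.comp σ.injective)
  have hcont : ∀ j, ContinuousOn (u j) (Ioi 0) := fun j l hl =>
    ((huv j).hu l hl).continuousAt.continuousWithinAt
  have hord : ∀ l : ℝ, 0 < l → ∀ i j, i < j → u (σ i) l < u (σ j) l := by
    intro l hl i j hij
    have h1 : u (σ i) 1 < u (σ j) 1 := hmono hij
    have hne : σ i ≠ σ j := fun h => hij.ne (σ.injective h)
    have := Pool.Agent.W74.FM.B.sign_Ioi (f := fun l => u (σ j) l - u (σ i) l)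
      ((hcont _).sub (hcont _)) (fun x hx h0 => hne (hdisj x hx (σ i) (σ j) (u (σ i) x)
        (left_mem_Icc.2 ((huv _).lt x hx).le) (by
          have : u (σ i) x = u (σ j) x := by linarith
          rw [this]
          exact left_mem_Icc.2 ((huv _).lt x hx).le))) one_pos hl (by linarith)
    linarith
  refine ⟨fun j => u (σ j), fun j => v (σ j), fun j => huv (σ j), ?_, ?_⟩
  · intro l hl i j hij
    have h1 := hord l hl i j hij
    have hne : σ i ≠ σ j := fun h => hij.ne (σ.injective h)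
    by_contra hc
    push Not at hc
    exact hne (hdisj l hl (σ i) (σ j) (u (σ j) l) ⟨h1.le, hc⟩
      (left_mem_Icc.2 ((huv _).lt l hl).le))
  · intro l hl
    ext E
    simp only [mem_setOf_eq, mem_iUnion]
    constructor
    · intro hE
      obtain ⟨p', q', hb, hm⟩ := ex_band hl hn hE
      have : p' ∈ {E : ℝ | tr l n E = 1} := hb.1
      rw [(hp l hl).2] at this
      obtain ⟨j, hj⟩ := this
      simp only at hj
      refine ⟨σ.symm j, ?_⟩
      rw [Equiv.apply_symm_apply, hI j l hl]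
      have h2 := uniq hl hn hb (hk j l hl) left_mem_uIcc (by rw [← hj]; exact left_mem_uIcc)
      rw [← h2.1, ← h2.2]
      exact hm
    · rintro ⟨j, hj⟩
      exact (huv (σ j)).le l hl E hj

end Pool.Agent.Y662.FIB
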