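import Pool.Agent.Y662.FIB.Wr
import Pool.Agent.W38.FM.RF

/-!
Leading coefficients of the trace polynomials, location of their critical points, and the
quantitative form of the convexity inequality.
-/

set_option autoImplicit false

open Polynomial

namespace Pool.Agent.Y662.FIB

open Pool.Agent.W745.Fib Pool.Agent.W811.Stu

lemma mul_coeff_two (p q : ℝ[X]) : (p * q).coeff 2 =
    p.coeff 0 * q.coeff 2 + p.coeff 1 * q.coeff 1 + p.coeff 2 * q.coeff 0 := by
  rw [coeff_mul]
  simp [Finset.Nat.antidiagonal_succ]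
  ring

lemma fib3 (n : ℕ) : Nat.fib (n + 3) = Nat.fib (n + 2) + Nat.fib (n + 1) := by
  rw [show n + 3 = (n + 1) + 2 by ring, Nat.fib_add_two, add_comm]

lemma fib_gap (n : ℕ) : Nat.fib n + 2 ≤ Nat.fib (n + 3) := by
  have h1 : Nat.fib (n + 3) = Nat.fib n + 2 * Nat.fib (n + 1) := by
    rw [fib3, Nat.fib_add_two]; ring
  have h2 : 0 < Nat.fib (n + 1) := Nat.fib_pos.2 (by omega)
  omega

lemma refl_small {p : ℝ[X]} {N i : ℕ} (hi : i ≤ N) (h : p.natDegree < N - i) :
    (reflect N p).coeff i = 0 := by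
  rw [coeff_reflect, revAt_le hi]
  exact coeff_eq_zero_of_natDegree_lt h

lemma top_coeffs (l : ℝ) (n : ℕ) :
    (1 ≤ n → (reflect (Nat.fib n) (P l n)).coeff 0 = 1 / 2 ∧
      (reflect (Nat.fib n) (P l n)).coeff 1 = -(l / 2) * Nat.fib (n - 1)) ∧
    (reflect (Nat.fib n) (R l n)).coeff 0 = 0 ∧
    (1 ≤ n → (reflect (Nat.fib n) (R l n)).coeff 1 = -(Nat.fib (n - 1) : ℝ) / 2 ∧
      (reflect (Nat.fib n) (R l n)).coeff 2 =
        l / 2 * Nat.fib (n - 1) * ((Nat.fib (n - 1) : ℝ) - 1)) := by
  revert n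
  apply ind3
  · refine ⟨by intro h; omega, ?_, by intro h; omega⟩
    simp [R]
  · refine ⟨fun _ => ⟨?_, ?_⟩, ?_, fun _ => ⟨?_, ?_⟩⟩
    · rw [coeff_reflect, revAt_le (by simp)]
      simp [P]
    · rw [coeff_reflect, revAt_le (by simp)]
      simp [P]
    · simp [R]
    · simp [R]
    · simp [R]
  · refine ⟨fun _ => ⟨?_, ?_⟩, ?_, fun _ => ⟨?_, ?_⟩⟩
    · rw [coeff_reflect, revAt_le (by simp)]
      simp [P, coeff_X, coeff_C]
    · rw [coeff_reflect, revAt_le (by simp)]
      simp [P, coeff_X, coeff_C]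
      ring
    · rw [coeff_reflect, revAt_le (by simp), R, coeff_C]
      simp
    · rw [coeff_reflect, revAt_le (by simp), R, coeff_C]
      simp
      ring
    · rw [coeff_reflect, R, coeff_C]
      have : revAt (Nat.fib 2) 2 = 2 := by
        have : Nat.fib 2 < 2 := by simp
        exact revAtFun_eq _ _ ▸ (by unfold revAtFun; rw [if_neg (by omega)])
      rw [this]
      simp
  · intro n h0 h1 h2
    obtain ⟨-, r0, -⟩ := h0
    obtain ⟨p1, r1, r1'⟩ := h1
    obtain ⟨p2, r2, r2'⟩ := h2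
    obtain ⟨p10, p11⟩ := p1 (by omega)
    obtain ⟨r11, r12⟩ := r1' (by omega)
    obtain ⟨p20, p21⟩ := p2 (by omega)
    obtain ⟨r21, r22⟩ := r2' (by omega)
    have g := fib_gap n
    have dP := natDegree_P l n
    have dP1 := natDegree_P l (n + 1)
    have dP2 := natDegree_P l (n + 2)
    have dR1 := natDegree_R l (n + 1)
    have dR2 := natDegree_R l (n + 2)
    have dR := natDegree_R l n
    have dR' : (R l n).natDegree + 1 ≤ Nat.fib n ∨ R l n = 0 := by
      rcases Nat.eq_zero_or_pos n with h | h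
      · right; subst h; rfl
      · left
        have : 0 < Nat.fib n := Nat.fib_pos.2 h
        omega
    have hP : reflect (Nat.fib (n + 3)) (P l (n + 3)) =
        C 2 * reflect (Nat.fib (n + 2)) (P l (n + 2)) * reflect (Nat.fib (n + 1)) (P l (n + 1))
          - reflect (Nat.fib (n + 3)) (P l n) := by
      rw [P, reflect_sub]
      congr 1
      rw [fib3, reflect_mul _ _ (le_trans (natDegree_C_mul_le _ _) dP2.le) dP1.le, reflect_C_mul]
    have hR : reflect (Nat.fib (n + 3)) (R l (n + 3)) =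
        C 2 * reflect (Nat.fib (n + 2)) (R l (n + 2)) * reflect (Nat.fib (n + 1)) (P l (n + 1))
          + C 2 * reflect (Nat.fib (n + 2)) (P l (n + 2)) * reflect (Nat.fib (n + 1)) (R l (n + 1))
          - reflect (Nat.fib (n + 3)) (R l n) := by
      rw [R, reflect_sub, reflect_add]
      congr 1
      rw [fib3, reflect_mul _ _ (le_trans (natDegree_C_mul_le _ _) (dR2.trans (Nat.sub_le _ _)))
        dP1.le, reflect_mul _ _ (le_trans (natDegree_C_mul_le _ _) dP2.le)
        (dR1.trans (Nat.sub_le _ _)), reflect_C_mul, reflect_C_mul]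
    have z0 : (reflect (Nat.fib (n + 3)) (P l n)).coeff 0 = 0 := refl_small (by omega) (by omega)
    have z1 : (reflect (Nat.fib (n + 3)) (P l n)).coeff 1 = 0 := refl_small (by omega) (by omega)
    have y : ∀ i, i ≤ 2 → (reflect (Nat.fib (n + 3)) (R l n)).coeff i = 0 := by
      intro i hi
      rcases dR' with h | h
      · exact refl_small (by omega) (by omega)
      · rw [h]; simp
    have f1 : Nat.fib (n + 3 - 1) = Nat.fib (n + 2 - 1) + Nat.fib (n + 1 - 1) := by
      rw [show n + 3 - 1 = n + 2 by omega, show n + 2 - 1 = n + 1 by omega,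
        show n + 1 - 1 = n by omega, Nat.fib_add_two, add_comm]
    refine ⟨fun _ => ⟨?_, ?_⟩, ?_, fun _ => ⟨?_, ?_⟩⟩
    · rw [hP, coeff_sub, z0, mul_assoc, coeff_C_mul, mul_coeff_zero, p10, p20]
      norm_num
    · rw [hP, coeff_sub, z1, mul_assoc, coeff_C_mul, mul_coeff_one, p10, p20, p11, p21, f1]
      push_cast
      ring
    · rw [hR, coeff_sub, y 0 (by omega), coeff_add, mul_assoc, mul_assoc, coeff_C_mul,
        coeff_C_mul, mul_coeff_zero, mul_coeff_zero, r2, r1]
      norm_num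
    · rw [hR, coeff_sub, y 1 (by omega), coeff_add, mul_assoc, mul_assoc, coeff_C_mul,
        coeff_C_mul, mul_coeff_one, mul_coeff_one, r2, r1, r11, r21, p10, p20, f1]
      push_cast
      ring
    · rw [hR, coeff_sub, y 2 (by omega), coeff_add, mul_assoc, mul_assoc, coeff_C_mul,
        coeff_C_mul, mul_coeff_two, mul_coeff_two, r2, r1, r11, r21, r12, r22, p10, p20, p11,
        p21, f1]
      push_cast
      ring

/-- no critical points to the right of `max 2 (2 + μ)` -/
lemma right_of {μ E : ℝ} (h1 : 2 ≤ E) (h2 : 2 + μ ≤ E) (n : ℕ) :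
    1 ≤ tr μ n E ∧ (1 ≤ n → 0 < dE μ n E) := by
  have key : ∀ n, 1 ≤ tr μ n E ∧ 1 ≤ tr μ (n + 1) E ∧ 1 ≤ tr μ (n + 2) E ∧
      tr μ n E ≤ tr μ (n + 1) E * tr μ (n + 2) E ∧
      0 ≤ dE μ n E ∧ 0 < dE μ (n + 1) E ∧ 0 < dE μ (n + 2) E ∧
      dE μ n E ≤ dE μ (n + 2) E * tr μ (n + 1) E + tr μ (n + 2) E * dE μ (n + 1) E := by
    intro n
    induction n with
    | zero =>
      rw [tr_zero, tr_one, tr_two, dE_zero, dE_one, dE_two]
      refine ⟨le_rfl, by linarith, by linarith, ?_, le_rfl, by norm_num, by norm_num, by linarith⟩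
      nlinarith
    | succ n ih =>
      obtain ⟨a0, a1, a2, a3, b0, b1, b2, b3⟩ := ih
      have t3 : tr μ (n + 3) E = 2 * tr μ (n + 2) E * tr μ (n + 1) E - tr μ n E := tr_rec μ n E
      have e3 := dE_rec μ n E
      have c1 : tr μ (n + 1) E * tr μ (n + 2) E ≤ tr μ (n + 3) E := by nlinarith
      have c2 : 1 ≤ tr μ (n + 1) E * tr μ (n + 2) E := by nlinarith
      have c3 : dE μ (n + 2) E * tr μ (n + 1) E + tr μ (n + 2) E * dE μ (n + 1) E ≤
          dE μ (n + 3) E := by nlinarith
      have c4 : 0 < dE μ (n + 2) E * tr μ (n + 1) E := by positivity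
      have c5 : 0 < tr μ (n + 2) E * dE μ (n + 1) E := by positivity
      refine ⟨a1, a2, by linarith, ?_, b1.le, b2, by linarith, ?_⟩
      · show tr μ (n + 1) E ≤ tr μ (n + 2) E * tr μ (n + 3) E
        have : tr μ (n + 1) E ≤ tr μ (n + 2) E * (tr μ (n + 1) E * tr μ (n + 2) E) := by
          have h : 1 ≤ tr μ (n + 2) E ^ 2 := by nlinarith
          nlinarith
        nlinarith
      · show dE μ (n + 1) E ≤ dE μ (n + 3) E * tr μ (n + 2) E + tr μ (n + 3) E * dE μ (n + 2) E
        have h3 : 1 ≤ tr μ (n + 3) E := by linarith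
        have h4 : dE μ (n + 1) E ≤ dE μ (n + 3) E := by nlinarith
        have h5 : 0 < tr μ (n + 3) E * dE μ (n + 2) E := by positivity
        have h6 : 0 < dE μ (n + 3) E := by linarith
        nlinarith
  have h := key n
  refine ⟨h.1, fun hn => ?_⟩
  obtain ⟨m, rfl⟩ : ∃ m, n = m + 1 := ⟨n - 1, by omega⟩
  exact (key m).2.2.2.2.2.1

/-- location of the bands and of the critical points -/
lemma locate {l : ℝ} (hl : 0 < l) {n : ℕ} (hn : 1 ≤ n) {E : ℝ}
    (h : |tr l n E| < 1 ∨ dE l n E = 0) : -2 ≤ E ∧ E ≤ 2 + l := by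
  constructor
  · by_contra hc
    push Not at hc
    have h1 := right_of (μ := -l) (E := -E) (by linarith) (by linarith) n
    have h2 := Pool.Agent.W38.FM.tr_neg l n (-E)
    have h3 := Pool.Agent.W38.FM.dE_neg l n (-E)
    rw [neg_neg] at h2 h3
    rcases h with h | h
    · rw [h2] at h1
      rcases Pool.Agent.W38.FM.sg_cases n with hs | hs
      · rw [hs] at h1
        have := (abs_lt.1 h).2
        linarith [h1.1]
      · rw [hs] at h1
        have := (abs_lt.1 h).1
        linarith [h1.1]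
    · rw [h3, h] at h1
      have := h1.2 hn
      simp at this
  · by_contra hc
    push Not at hc
    have h1 := right_of (μ := l) (E := E) (by linarith) (by linarith) n
    rcases h with h | h
    · have := (abs_lt.1 h).2
      linarith [h1.1]
    · have := h1.2 hn
      linarith

end Pool.Agent.Y662.FIB
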