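import Pool.Agent.Y662.FIB.Band
import Pool.Agent.Y662.FIB.Top

/-!
Uniform rate at which the bands of the periodic approximants shrink.
-/

set_option autoImplicit false

open Polynomial Set

namespace Pool.Agent.Y662.FIB

open Pool.Agent.W745.Fib Pool.Agent.W811.Stu

lemma fib_ineq {n : ℕ} (hn : 3 ≤ n) :
    2 / 9 * (Nat.fib n : ℝ) ^ 2 ≤ Nat.fib (n - 1) * ((Nat.fib n : ℝ) - Nat.fib (n - 1)) := by
  obtain ⟨m, rfl⟩ : ∃ m, n = m + 3 := ⟨n - 3, by omega⟩
  have e1 : Nat.fib (m + 3) = Nat.fib (m + 1) + Nat.fib (m + 2) := Nat.fib_add_two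
  have e2 : Nat.fib (m + 2) = Nat.fib m + Nat.fib (m + 1) := Nat.fib_add_two
  have e3 : Nat.fib m ≤ Nat.fib (m + 1) := Nat.fib_le_fib_succ
  have e : m + 3 - 1 = m + 2 := by omega
  rw [e]
  have h1 : (Nat.fib (m + 3) : ℝ) = Nat.fib (m + 1) + Nat.fib (m + 2) := by exact_mod_cast e1
  have h2 : (Nat.fib (m + 2) : ℝ) = Nat.fib m + Nat.fib (m + 1) := by exact_mod_cast e2
  have h3 : (Nat.fib m : ℝ) ≤ Nat.fib (m + 1) := by exact_mod_cast e3
  have h4 : (0 : ℝ) ≤ Nat.fib m := by positivity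
  have k1 : 0 ≤ 3 * (Nat.fib (m + 2) : ℝ) - Nat.fib (m + 3) := by linarith
  have k2 : 0 ≤ 2 * (Nat.fib (m + 3) : ℝ) - 3 * Nat.fib (m + 2) := by linarith
  nlinarith [mul_nonneg k1 k2]

/-- quantitative form of part C inside the bands -/
theorem quantC {l : ℝ} (hl : 0 < l) {n : ℕ} (hn3 : 3 ≤ n) {x : ℝ} (hx : |tr l n x| < 1) :
    2 / 9 * l * dE l n x ^ 2 ≤ (4 + l) ^ 2 *
      (dLE l n x * dE l n x - dL l n x * dEE l n x) := by
  have hn : 1 ≤ n := by omega
  obtain ⟨_, _, hfin, hcard, hsgn⟩ := hZ l hl.ne' n hn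
  have hb := hB l hl n hn
  have hP : P l n ≠ 0 := P_ne_zero l n
  have hfib2 : 2 ≤ Nat.fib n := by
    calc 2 = Nat.fib 3 := rfl
      _ ≤ Nat.fib n := Nat.fib_mono hn3
  have hdeg : (derivative (P l n)).natDegree = Nat.fib n - 1 := by
    rw [natDegree_derivative, natDegree_P]
  have hD : derivative (P l n) ≠ 0 := by
    intro h
    have h2 := derivative_eq_zero.1 h
    rw [natDegree_P] at h2
    omega
  have hcard' : hfin.toFinset.card = Nat.fib n - 1 := by
    rw [← hcard, Set.ncard_eq_toFinset_card _ hfin]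
  have hxl := locate hl hn (Or.inl hx)
  have key := wronskian_lower (derivative (P l n)) (R l n) hfin.toFinset hD
    (by rw [hdeg, hcard'])
    (by rw [hdeg]; omega)
    (by
      intro c hc
      exact (hfin.mem_toFinset.1 hc))
    (by rw [hdeg]; exact natDegree_R l n)
    (by
      intro c hc h
      have := hsgn c (hfin.mem_toFinset.1 hc)
      have h' : dEE l n c = 0 := h
      rw [h', mul_zero] at this
      exact lt_irrefl _ this)
    (by
      intro c hc
      have hc' : dE l n c = 0 := hfin.mem_toFinset.1 hc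
      have h1 := hsgn c hc'
      have h2 := hb c hc'
      change dL l n c / dEE l n c ≤ 0
      rcases lt_trichotomy (tr l n c) 0 with h | h | h
      · have h3 : 0 < dEE l n c := by
          by_contra hcon
          have := mul_nonneg_of_nonpos_of_nonpos h.le (not_lt.1 hcon)
          linarith
        have h4 : dL l n c < 0 := by
          by_contra hcon
          have := mul_nonpos_of_nonpos_of_nonneg h.le (not_lt.1 hcon)
          linarith
        exact (div_neg_of_neg_of_pos h4 h3).le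
      · rw [h, zero_mul] at h1; exact absurd h1 (lt_irrefl _)
      · have h3 : dEE l n c < 0 := by
          by_contra hcon
          have := mul_nonneg h.le (not_lt.1 hcon)
          linarith
        have h4 : 0 < dL l n c := by
          by_contra hcon
          have := mul_nonpos_of_nonneg_of_nonpos h.le (not_lt.1 hcon)
          linarith
        exact (div_neg_of_pos_of_neg h4 h3).le) x (4 + l)
    (by
      intro c hc
      have hcl := locate hl hn (Or.inr (hfin.mem_toFinset.1 hc : dE l n c = 0))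
      rw [abs_le]
      constructor <;> linarith [hxl.1, hxl.2, hcl.1, hcl.2])
  -- the coefficients
  obtain ⟨t1, -, t2⟩ := top_coeffs l n
  obtain ⟨c0, c1⟩ := t1 hn
  obtain ⟨r1, r2⟩ := t2 hn
  rw [coeff_reflect, revAt_le (by omega), Nat.sub_zero] at c0
  rw [coeff_reflect, revAt_le (by omega)] at c1 r1
  rw [coeff_reflect, revAt_le (by omega)] at r2
  have f1 : ((Nat.fib n - 1 : ℕ) : ℝ) = (Nat.fib n : ℝ) - 1 := by
    rw [Nat.cast_sub (by omega)]; simp
  have f2 : ((Nat.fib n - 1 - 1 : ℕ) : ℝ) = (Nat.fib n : ℝ) - 2 := by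
    rw [show Nat.fib n - 1 - 1 = Nat.fib n - 2 by omega, Nat.cast_sub (by omega)]; simp
  have lc : (derivative (P l n)).leadingCoeff = (Nat.fib n : ℝ) / 2 := by
    unfold leadingCoeff
    rw [hdeg, coeff_derivative, show Nat.fib n - 1 + 1 = Nat.fib n by omega, c0, f1]
    ring
  have d1 : (derivative (P l n)).coeff (Nat.fib n - 1 - 1) =
      -(l / 2) * Nat.fib (n - 1) * ((Nat.fib n : ℝ) - 1) := by
    rw [coeff_derivative, show Nat.fib n - 1 - 1 + 1 = Nat.fib n - 1 by omega, c1, f2]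
    ring
  rw [hdeg, lc, d1, r1, show Nat.fib n - 1 - 1 = Nat.fib n - 2 by omega, r2] at key
  have key2 : l * (Nat.fib (n - 1) * ((Nat.fib n : ℝ) - Nat.fib (n - 1))) / 4 * dE l n x ^ 2 ≤
      (4 + l) ^ 2 * ((Nat.fib n : ℝ) / 2) ^ 2 *
        (dLE l n x * dE l n x - dL l n x * dEE l n x) := by
    refine le_trans (le_of_eq ?_) key
    change l * (Nat.fib (n - 1) * ((Nat.fib n : ℝ) - Nat.fib (n - 1))) / 4 *
      (derivative (P l n)).eval x ^ 2 = _
    ring
  have hF : (2 : ℝ) ≤ Nat.fib n := by exact_mod_cast hfib2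
  have key3 : 2 / 9 * (Nat.fib n : ℝ) ^ 2 * (l / 4 * dE l n x ^ 2) ≤
      Nat.fib (n - 1) * ((Nat.fib n : ℝ) - Nat.fib (n - 1)) * (l / 4 * dE l n x ^ 2) :=
    mul_le_mul_of_nonneg_right (fib_ineq hn3) (by positivity)
  have key4 : (Nat.fib n : ℝ) ^ 2 / 4 * (2 / 9 * l * dE l n x ^ 2) ≤
      (Nat.fib n : ℝ) ^ 2 / 4 * ((4 + l) ^ 2 *
        (dLE l n x * dE l n x - dL l n x * dEE l n x)) := by
    calc (Nat.fib n : ℝ) ^ 2 / 4 * (2 / 9 * l * dE l n x ^ 2)
        = 2 / 9 * (Nat.fib n : ℝ) ^ 2 * (l / 4 * dE l n x ^ 2) := by ring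
      _ ≤ _ := key3
      _ = l * (Nat.fib (n - 1) * ((Nat.fib n : ℝ) - Nat.fib (n - 1))) / 4 * dE l n x ^ 2 := by
          ring
      _ ≤ _ := key2
      _ = _ := by ring
  exact le_of_mul_le_mul_left key4 (by positivity)

/-- the exponent in the uniform rate -/
noncomputable def hh (l : ℝ) : ℝ := 2 / 9 * (Real.log (4 + l) + 4 / (4 + l))

lemma hh_deriv {l : ℝ} (hl : 0 < l) : HasDerivAt hh (2 / 9 * l / (4 + l) ^ 2) l := by
  have h4 : (4 + l) ≠ 0 := by positivity
  have h1 : HasDerivAt (fun l : ℝ => 4 + l) 1 l := (hasDerivAt_id l).const_add 4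
  have h2 := h1.log h4
  have h3 := ((hasDerivAt_const l (4 : ℝ)).div h1 h4)
  have h5 := (h2.add h3).const_mul (2 / 9 : ℝ)
  refine h5.congr_deriv ?_
  field_simp
  ring

/-- the velocity inside a band, quantitatively -/
lemma vel_rate {n : ℕ} (hn : 3 ≤ n) {u v : ℝ → ℝ} (h : Ends n u v) {l : ℝ} (hl : 0 < l) :
    -(dL l n (v l)) / dE l n (v l) - -(dL l n (u l)) / dE l n (u l) ≤
      -(2 / 9 * l / (4 + l) ^ 2) * (v l - u l) := by
  have hlt := h.lt l hl
  have hne : ∀ e ∈ Icc (u l) (v l), dE l n e ≠ 0 := fun e he =>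
    dE_ne hl (by omega) (h.le l hl e he)
  have hd : ∀ e ∈ Icc (u l) (v l), HasDerivAt (fun e => -(dL l n e) / dE l n e)
      ((-(dLE l n e) * dE l n e - -(dL l n e) * dEE l n e) / dE l n e ^ 2) e := fun e he =>
    (hasDeriv_dL l n e).neg.div (hasDeriv_dE l n e) (hne e he)
  have hint : ∀ e ∈ Ioo (u l) (v l), |tr l n e| < 1 := by
    intro e he
    have hmem : e ∈ Icc (u l) (v l) := ⟨he.1.le, he.2.le⟩
    have hu := abs_le.1 (h.le l hl (u l) (left_mem_Icc.2 hlt.le))
    have hv := abs_le.1 (h.le l hl (v l) (right_mem_Icc.2 hlt.le))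
    rw [abs_lt]
    rcases mono_seg hl (by omega) (h.le l hl) with hm | hm
    · have a1 := hm (left_mem_Icc.2 hlt.le) hmem he.1
      have a2 := hm hmem (right_mem_Icc.2 hlt.le) he.2
      constructor <;> linarith [hu.1, hv.2]
    · have a1 := hm (left_mem_Icc.2 hlt.le) hmem he.1
      have a2 := hm hmem (right_mem_Icc.2 hlt.le) he.2
      constructor <;> linarith [hu.2, hv.1]
  refine (convex_Icc (u l) (v l)).image_sub_le_mul_sub_of_deriv_le
    (f := fun e => -(dL l n e) / dE l n e)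
    (fun e he => (hd e he).continuousAt.continuousWithinAt)
    (fun e he => (hd e (interior_subset he)).differentiableAt.differentiableWithinAt)
    (fun e he => ?_) (u l) (left_mem_Icc.2 hlt.le) (v l) (right_mem_Icc.2 hlt.le) hlt.le
  rw [(hd e (interior_subset he)).deriv]
  rw [interior_Icc] at he
  have hq := quantC hl hn (hint e he)
  have hE : 0 < dE l n e ^ 2 := by
    have := hne e ⟨he.1.le, he.2.le⟩
    positivity
  have h4 : (0 : ℝ) < (4 + l) ^ 2 := by positivity
  rw [show (-(2 / 9 * l / (4 + l) ^ 2)) = (-(2 / 9 * l)) / (4 + l) ^ 2 by ring,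
    div_le_div_iff₀ hE h4]
  nlinarith

/-- uniform rate -/
theorem rate {n : ℕ} (hn : 3 ≤ n) {u v : ℝ → ℝ} (h : Ends n u v) {a b : ℝ} (ha : 0 < a)
    (hab : a ≤ b) : v b - u b ≤ Real.exp (hh a - hh b) * (v a - u a) := by
  have hd : ∀ l : ℝ, 0 < l → HasDerivAt (fun l => (v l - u l) * Real.exp (hh l))
      ((-(dL l n (v l)) / dE l n (v l) - -(dL l n (u l)) / dE l n (u l)) * Real.exp (hh l) +
        (v l - u l) * (Real.exp (hh l) * (2 / 9 * l / (4 + l) ^ 2))) l := fun l hl =>
    ((h.hv l hl).sub (h.hu l hl)).mul (hh_deriv hl).exp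
  have hanti : AntitoneOn (fun l => (v l - u l) * Real.exp (hh l)) (Ioi 0) := by
    apply antitoneOn_of_deriv_nonpos (convex_Ioi 0)
    · intro l hl
      exact (hd l hl).continuousAt.continuousWithinAt
    · intro l hl
      exact (hd l (interior_subset hl)).differentiableAt.differentiableWithinAt
    · intro l hl
      have hl' : 0 < l := interior_subset hl
      rw [(hd l hl').deriv]
      have h1 := vel_rate hn h hl'
      have h2 : 0 < Real.exp (hh l) := Real.exp_pos _
      nlinarith [mul_le_mul_of_nonneg_right h1 h2.le]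
  have h1 := hanti (mem_Ioi.2 ha) (mem_Ioi.2 (lt_of_lt_of_le ha hab)) hab
  simp only at h1
  rw [Real.exp_sub, div_mul_eq_mul_div, le_div_iff₀ (Real.exp_pos _)]
  linarith

end Pool.Agent.Y662.FIB
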